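import Mathlib
set_option autoImplicit false
set_option linter.unusedSectionVars false
namespace Pool.Agent.H975R2.Wreath

open Finset

section circ

variable {W : Type*} [Fintype W] [DecidableEq W]

/-- Circulant graphs of degree `2 j` on all classes of an equivalence relation, with a
tail colouring and head colouring by `2 j` colours. -/
theorem exists_circ (r : W → W → Prop) [DecidableRel r] (rrefl : ∀ u, r u u)
    (rsymm : ∀ u v, r u v → r v u) (rtrans : ∀ u v w, r u v → r v w → r u w) (j : ℕ) :
    ∃ (F : W → W → Prop) (f : W → W → ℕ), (∀ u w, F u w → F w u) ∧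
      (∀ u w, F u w → r u w ∧ u ≠ w) ∧
      ∀ u, 2 * j < (univ.filter (fun w => r u w)).card →
        (∃ S : Finset W, S.card = 2 * j ∧ ∀ w, w ∈ S ↔ F u w) ∧
        (∀ w, F u w → f u w < 2 * j ∧ f w u < 2 * j) ∧
        (∀ w w', F u w → F u w' → w ≠ w' → f u w ≠ f u w') ∧
        (∀ w w', F u w → F u w' → w ≠ w' → f w u ≠ f w' u) := by
  classical
  let e := Fintype.equivFin W
  let O : W → Finset W := fun u => univ.filter (fun w => r u w)
  let n : W → ℕ := fun u => (O u).card
  have hO : ∀ u v, r u v → O u = O v := by
    intro u v h
    ext w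
    simp only [O, mem_filter, mem_univ, true_and]
    exact ⟨fun h1 => rtrans _ _ _ (rsymm _ _ h) h1, fun h1 => rtrans _ _ _ h h1⟩
  have hn : ∀ u v, r u v → n u = n v := fun u v h => by simp only [n, hO u v h]
  let idx : W → ℕ := fun u => ((O u).filter (fun w => e w < e u)).card
  have hidx_lt : ∀ u v, r u v → idx v < n u := by
    intro u v h
    rw [hn u v h]
    simp only [idx, n]
    apply Finset.card_lt_card
    refine ⟨Finset.filter_subset _ _, fun hsub => ?_⟩
    have h1 : v ∈ O v := by simp [O, rrefl]
    have h2 := hsub h1
    simp at h2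
  have hidx_inj : ∀ u v w, r u v → r u w → idx v = idx w → v = w := by
    intro u v w hv hw h
    by_contra hne
    have hOO : O v = O w := by rw [← hO u v hv, hO u w hw]
    have aux : ∀ a b : W, O a = O b → a ∈ O a → e a < e b → idx a < idx b := by
      intro a b hab haa hlt
      simp only [idx]
      apply Finset.card_lt_card
      rw [← hab]
      refine ⟨?_, fun hsub => ?_⟩
      · intro c hc
        rw [mem_filter] at hc ⊢
        exact ⟨hc.1, lt_trans hc.2 hlt⟩
      · have h2 : a ∈ (O a).filter (fun w => e w < e b) := mem_filter.mpr ⟨haa, hlt⟩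
        have h3 := hsub h2
        simp at h3
    have hvv : v ∈ O v := by simp [O, rrefl]
    have hww : w ∈ O w := by simp [O, rrefl]
    rcases lt_trichotomy (e v) (e w) with h1 | h1 | h1
    · exact absurd h (aux v w hOO hvv h1).ne
    · exact hne (e.injective h1)
    · exact absurd h (aux w v hOO.symm hww h1).ne'
  -- cyclic difference
  let δ : W → W → ℕ := fun u w => if idx u ≤ idx w then idx w - idx u else idx w + n u - idx u
  have hδlt : ∀ u w, r u w → δ u w < n u := by
    intro u w h
    have h1 := hidx_lt u w h
    have h2 := hidx_lt u u (rrefl u)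
    simp only [δ]
    split_ifs <;> omega
  have hδinj : ∀ u w w', r u w → r u w' → δ u w = δ u w' → w = w' := by
    intro u w w' h h' heq
    have h1 := hidx_lt u w h
    have h2 := hidx_lt u u (rrefl u)
    have h3 := hidx_lt u w' h'
    apply hidx_inj u w w' h h'
    simp only [δ] at heq
    split_ifs at heq <;> omega
  have hδadd : ∀ u w, r u w → u ≠ w → δ u w + δ w u = n u ∧ 0 < δ u w ∧ 0 < δ w u := by
    intro u w h hne
    have h1 := hidx_lt u w h
    have h2 := hidx_lt u u (rrefl u)
    have h3 : idx u ≠ idx w := fun h4 => hne (hidx_inj u u w (rrefl u) h h4)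
    have h4 : n w = n u := (hn u w h).symm
    simp only [δ, h4]
    split_ifs <;> omega
  let F : W → W → Prop := fun u w => r u w ∧ u ≠ w ∧ (δ u w ≤ j ∨ δ w u ≤ j)
  let f : W → W → ℕ := fun u w => if δ u w ≤ j then δ u w - 1 else j + δ w u - 1
  refine ⟨F, f, ?_, ?_, ?_⟩
  · rintro u w ⟨h1, h2, h3⟩
    exact ⟨rsymm _ _ h1, h2.symm, h3.symm⟩
  · rintro u w ⟨h1, h2, h3⟩
    exact ⟨h1, h2⟩
  · intro u hu
    have hnu : n u = (univ.filter (fun w => r u w)).card := rfl
    rw [← hnu] at hu
    refine ⟨?_, ?_, ?_, ?_⟩
    · refine ⟨(O u).filter (fun w => F u w), ?_, ?_⟩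
      · -- count through `δ`
        have himg : (O u).image (δ u) = range (n u) := by
          apply Finset.eq_of_subset_of_card_le
          · intro s hs
            rw [mem_image] at hs
            obtain ⟨w, hw, rfl⟩ := hs
            rw [mem_range]
            exact hδlt u w (mem_filter.mp hw).2
          · rw [card_range, Finset.card_image_of_injOn]
            intro w hw w' hw' heq
            exact hδinj u w w' (mem_filter.mp hw).2 (mem_filter.mp hw').2 heq
        have h1 : ((O u).filter (fun w => F u w)).card =
            ((range (n u)).filter (fun s => 0 < s ∧ (s ≤ j ∨ n u - s ≤ j))).card := by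
          rw [← himg]
          rw [← Finset.card_image_of_injOn (s := (O u).filter (fun w => F u w)) (f := δ u)]
          · congr 1
            ext s
            rw [mem_image, mem_filter, mem_image]
            constructor
            · rintro ⟨w, hw, rfl⟩
              rw [mem_filter] at hw
              obtain ⟨hw1, hw2, hw3, hw4⟩ := hw
              obtain ⟨a1, a2, a3⟩ := hδadd u w hw2 hw3
              refine ⟨⟨w, hw1, rfl⟩, a2, ?_⟩
              rcases hw4 with h | h
              · left; exact h
              · right; omega
            · rintro ⟨⟨w, hw, rfl⟩, hpos, hor⟩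
              have hrw : r u w := (mem_filter.mp hw).2
              have hne : u ≠ w := by
                rintro rfl
                simp [δ] at hpos
              obtain ⟨a1, a2, a3⟩ := hδadd u w hrw hne
              refine ⟨w, mem_filter.mpr ⟨hw, hrw, hne, ?_⟩, rfl⟩
              rcases hor with h | h
              · left; exact h
              · right; omega
          · intro w hw w' hw' heq
            rw [Finset.mem_coe, mem_filter] at hw hw'
            exact hδinj u w w' (mem_filter.mp hw.1).2 (mem_filter.mp hw'.1).2 heq
        rw [h1]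
        have h2 : (range (n u)).filter (fun s => 0 < s ∧ (s ≤ j ∨ n u - s ≤ j)) =
            Ico 1 (j + 1) ∪ Ico (n u - j) (n u) := by
          ext s
          simp only [mem_filter, mem_range, mem_union, mem_Ico]
          omega
        rw [h2, Finset.card_union_of_disjoint, Nat.card_Ico, Nat.card_Ico]
        · omega
        · rw [Finset.disjoint_left]
          intro s hs hs'
          rw [mem_Ico] at hs hs'
          omega
      · intro w
        rw [mem_filter]
        constructor
        · rintro ⟨_, h⟩; exact h
        · intro h
          refine ⟨?_, h⟩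
          simp only [O, mem_filter, mem_univ, true_and]
          exact h.1
    · rintro w ⟨h1, h2, h3⟩
      obtain ⟨a1, a2, a3⟩ := hδadd u w h1 h2
      simp only [f]
      constructor
      · split_ifs <;> omega
      · split_ifs <;> omega
    · rintro w w' ⟨h1, h2, h3⟩ ⟨h1', h2', h3'⟩ hne heq
      obtain ⟨a1, a2, a3⟩ := hδadd u w h1 h2
      obtain ⟨b1, b2, b3⟩ := hδadd u w' h1' h2'
      have hd : δ u w ≠ δ u w' := fun h => hne (hδinj u w w' h1 h1' h)
      simp only [f] at heq
      split_ifs at heq <;> omega
    · rintro w w' ⟨h1, h2, h3⟩ ⟨h1', h2', h3'⟩ hne heq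
      obtain ⟨a1, a2, a3⟩ := hδadd u w h1 h2
      obtain ⟨b1, b2, b3⟩ := hδadd u w' h1' h2'
      have hd : δ u w ≠ δ u w' := fun h => hne (hδinj u w w' h1 h1' h)
      simp only [f] at heq
      split_ifs at heq <;> omega

end circ

end Pool.Agent.H975R2.Wreath
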