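import Pool.Agent.H975R2.Wreath.Fan
set_option autoImplicit false
set_option linter.unusedSectionVars false
namespace Pool.Agent.H975R2.Wreath

open Finset Pool.Agent.MPd14d18

section crit

variable {W : Type*} [Fintype W] [DecidableEq W]

/-- The multigraph with multiplicities `M` has a proper edge colouring with colours `L`. -/
def Colorable (L : Finset ℕ) (M : W → W → ℕ) : Prop :=
  ∃ m : ℕ → W → W, (∀ c v, m c (m c v) = v) ∧ ∀ u w, u ≠ w → mu L m u w = M u w

/-- degree of a vertex -/
def deg (M : W → W → ℕ) (u : W) : ℕ := ∑ w ∈ univ.erase u, M u w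

theorem mu_self_add_deg (L : Finset ℕ) (m : ℕ → W → W) (u : W) :
    (L.filter (fun c => m c u = u)).card + deg (mu L m) u = L.card := by
  classical
  have h1 : L.card = ∑ w : W, mu L m u w := by
    rw [Finset.card_eq_sum_card_fiberwise (f := fun c => m c u) (t := univ)
      (fun _ _ => Finset.mem_coe.mpr (mem_univ _))]
    exact Finset.sum_congr rfl fun w _ => (mu_eq_card L m u w).symm
  rw [h1, ← Finset.add_sum_erase univ (fun w => mu L m u w) (mem_univ u), mu_eq_card]
  rfl

theorem deg_congr {M M' : W → W → ℕ} (u : W) (h : ∀ w, u ≠ w → M u w = M' u w) :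
    deg M u = deg M' u := by
  unfold deg
  exact Finset.sum_congr rfl fun w hw => h w (Finset.ne_of_mem_erase hw).symm

theorem deg_mono {M M' : W → W → ℕ} (u : W) (h : ∀ w, M u w ≤ M' u w) :
    deg M u ≤ deg M' u := Finset.sum_le_sum fun w _ => h w

/-- A minimal non-colourable sub-multigraph with the fan inequality at each of its edges. -/
theorem exists_critical (L : Finset ℕ) (M : W → W → ℕ) (hsymm : ∀ u w, M u w = M w u)
    (hdeg : ∀ u, deg M u < L.card) (hnc : ¬ Colorable L M) :
    ∃ Mc : W → W → ℕ, (∀ u w, Mc u w = Mc w u) ∧ (∀ u w, Mc u w ≤ M u w) ∧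
      (∃ x y, x ≠ y ∧ 0 < Mc x y) ∧
      ∀ x y0, x ≠ y0 → 0 < Mc x y0 → ∃ Y : Finset W, y0 ∈ Y ∧ x ∉ Y ∧
        ∑ y ∈ Y, (L.card - deg Mc y) + 2 ≤ ∑ y ∈ Y, Mc x y := by
  classical
  let P : ℕ → Prop := fun n => ∃ Mc : W → W → ℕ, (∀ u w, Mc u w = Mc w u) ∧
    (∀ u w, Mc u w ≤ M u w) ∧ ¬ Colorable L Mc ∧ ∑ u, ∑ w, Mc u w = n
  have hP : ∃ n, P n := ⟨_, M, hsymm, fun _ _ => le_rfl, hnc, rfl⟩
  obtain ⟨Mc, hs, hle, hncc, hn⟩ := Nat.find_spec hP
  have hmin : ∀ M' : W → W → ℕ, (∀ u w, M' u w = M' w u) → (∀ u w, M' u w ≤ M u w) →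
      ∑ u, ∑ w, M' u w < ∑ u, ∑ w, Mc u w → Colorable L M' := by
    intro M' h1 h2 h3
    by_contra h4
    rw [hn] at h3
    exact Nat.find_min hP h3 ⟨M', h1, h2, h4, rfl⟩
  refine ⟨Mc, hs, hle, ?_, ?_⟩
  · by_contra hcon
    push Not at hcon
    apply hncc
    refine ⟨fun _ v => v, fun _ _ => rfl, fun u w huw => ?_⟩
    have h1 := hcon u w huw
    have h2 : Mc u w = 0 := by omega
    rw [h2]
    unfold mu
    simp [huw]
  · intro x y0 hxy hpos
    let M1 : W → W → ℕ := fun u w =>
      Mc u w - if (u = x ∧ w = y0) ∨ (u = y0 ∧ w = x) then 1 else 0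
    have hcond : ∀ u w : W, ((u = x ∧ w = y0) ∨ (u = y0 ∧ w = x)) ↔
        ((w = x ∧ u = y0) ∨ (w = y0 ∧ u = x)) := by
      intro u w; tauto
    have hM1s : ∀ u w, M1 u w = M1 w u := by
      intro u w
      simp only [M1]
      rw [hs u w]
      simp only [hcond u w]
    have hM1add : ∀ u w, Mc u w = M1 u w +
        if (u = x ∧ w = y0) ∨ (u = y0 ∧ w = x) then 1 else 0 := by
      intro u w
      simp only [M1]
      split_ifs with h
      · have : 0 < Mc u w := by
          rcases h with ⟨rfl, rfl⟩ | ⟨rfl, rfl⟩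
          · exact hpos
          · rw [hs]; exact hpos
        omega
      · omega
    have hlt : ∑ u, ∑ w, M1 u w < ∑ u, ∑ w, Mc u w := by
      apply Finset.sum_lt_sum
      · intro u _
        apply Finset.sum_le_sum
        intro w _
        rw [hM1add u w]; omega
      · refine ⟨x, mem_univ _, ?_⟩
        apply Finset.sum_lt_sum
        · intro w _
          rw [hM1add x w]; omega
        · refine ⟨y0, mem_univ _, ?_⟩
          rw [hM1add x y0]
          simp
    obtain ⟨m, hm, hmu⟩ := hmin M1 hM1s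
      (fun u w => le_trans (by rw [hM1add u w]; omega) (hle u w)) hlt
    have hno : NoExt L x y0 (mu L m) := by
      intro m' hm' hcon
      apply hncc
      refine ⟨m', hm', fun u w huw => ?_⟩
      rw [hcon u w huw, hmu u w huw, ← hM1add]
    have hdegm : ∀ u, deg (mu L m) u = deg M1 u := fun u =>
      deg_congr u (fun w huw => hmu u w huw)
    obtain ⟨b, hb⟩ : (L.filter (fun c => m c x = x)).Nonempty := by
      rw [← Finset.card_pos]
      have h1 := mu_self_add_deg L m x
      have h2 : deg M1 x ≤ deg M x := deg_mono x (fun w =>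
        le_trans (by rw [hM1add x w]; omega) (hle x w))
      have h3 := hdeg x
      rw [hdegm] at h1
      omega
    rw [mem_filter] at hb
    obtain ⟨Y, hy0, hxY, hsum⟩ := fan_ineq (L := L) (x := x) (y0 := y0) m hm hxy hno b
      hb.1 hb.2
    refine ⟨Y, hy0, hxY, ?_⟩
    -- degrees
    have hdeg1 : ∀ y ∈ Y, deg Mc y = deg M1 y + if y = y0 then 1 else 0 := by
      intro y hy
      have hyx : y ≠ x := by rintro rfl; exact hxY hy
      unfold deg
      have h1 : ∑ w ∈ univ.erase y, Mc y w = ∑ w ∈ univ.erase y, M1 y w +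
          ∑ w ∈ univ.erase y, if (y = x ∧ w = y0) ∨ (y = y0 ∧ w = x) then 1 else 0 := by
        rw [← Finset.sum_add_distrib]
        exact Finset.sum_congr rfl fun w _ => hM1add y w
      rw [h1]
      congr 1
      by_cases hyy : y = y0
      · subst hyy
        have h2 : ∀ w, ((y = x ∧ w = y) ∨ (y = y ∧ w = x)) ↔ w = x := by
          intro w
          constructor
          · rintro (⟨h, _⟩ | ⟨_, h⟩)
            · exact absurd h hyx
            · exact h
          · intro h; exact Or.inr ⟨rfl, h⟩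
        rw [Finset.sum_congr rfl (fun w _ => if_congr (h2 w) rfl rfl),
          Finset.sum_ite_eq' (univ.erase y) x (fun _ => 1)]
        simp [hyx.symm]
      · simp [hyx, hyy]
    have hdle : ∀ y ∈ Y, deg M1 y + (if y = y0 then 1 else 0) < L.card := by
      intro y hy
      rw [← hdeg1 y hy]
      exact lt_of_le_of_lt (deg_mono y (fun w => hle y w)) (hdeg y)
    have e1 : ∑ y ∈ Y, (L.filter (fun c => m c y = y)).card =
        ∑ y ∈ Y, (L.card - deg Mc y) + 1 := by
      have e2 : ∑ y ∈ Y, (L.filter (fun c => m c y = y)).card =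
          ∑ y ∈ Y, ((L.card - deg Mc y) + if y = y0 then 1 else 0) := by
        refine Finset.sum_congr rfl fun y hy => ?_
        have h1 := mu_self_add_deg L m y
        rw [hdegm] at h1
        have h2 := hdeg1 y hy
        have h3 := hdle y hy
        split_ifs at h2 h3 ⊢ <;> omega
      rw [e2, Finset.sum_add_distrib, Finset.sum_ite_eq' Y y0 (fun _ => 1), if_pos hy0]
    have e3 : ∑ y ∈ Y, Mc x y = ∑ y ∈ Y, mu L m x y + 1 := by
      have e4 : ∑ y ∈ Y, Mc x y = ∑ y ∈ Y, (mu L m x y + if y = y0 then 1 else 0) := by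
        refine Finset.sum_congr rfl fun y hy => ?_
        have hyx : x ≠ y := by rintro rfl; exact hxY hy
        rw [hM1add x y, hmu x y hyx]
        have this : ((x = x ∧ y = y0) ∨ (x = y0 ∧ y = x)) ↔ y = y0 := by
          constructor
          · rintro (⟨_, h⟩ | ⟨h, _⟩)
            · exact h
            · exact absurd h hxy
          · intro h; exact Or.inl ⟨rfl, h⟩
        rw [if_congr this rfl rfl]
      rw [e4, Finset.sum_add_distrib, Finset.sum_ite_eq' Y y0 (fun _ => 1), if_pos hy0]
    rw [e3]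
    omega

end crit

end Pool.Agent.H975R2.Wreath
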