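import Mathlib
set_option autoImplicit false
namespace Pool.Agent.H975R2.Wreath

/-- `c` is a proper edge colouring of `H` with the `n` colours `0, …, n - 1`: every edge gets a
colour smaller than `n`, and two different edges sharing an endpoint get different colours. -/
def IsEdgeColouring {V : Type*} (H : SimpleGraph V) (n : ℕ) (c : Sym2 V → ℕ) : Prop :=
  (∀ e ∈ H.edgeSet, c e < n) ∧
    ∀ e ∈ H.edgeSet, ∀ f ∈ H.edgeSet, e ≠ f → (∃ v, v ∈ e ∧ v ∈ f) → c e ≠ c f

/-- The edge-chromatic number (chromatic index): the least number of colours in a proper edge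
colouring of `H`. -/
noncomputable def chromIndex {V : Type*} (H : SimpleGraph V) : ℕ :=
  sInf {n | ∃ c, IsEdgeColouring H n c}

/-- The maximum degree of a finite graph. -/
noncomputable def maxDeg {V : Type*} [Fintype V] (H : SimpleGraph V) : ℕ :=
  @SimpleGraph.maxDegree V H _ (Classical.decRel _)

/-- The wreath product: `(x, x')` and `(y, y')` are adjacent exactly when `x = y` and `x' y'` is
an edge of `G'`, or `x y` is an edge of `G` and some automorphism of `G'` maps `x'` to `y'`. -/
def wreath {V W : Type*} (G : SimpleGraph V) (G' : SimpleGraph W) : SimpleGraph (V × W) where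
  Adj p q := (p.1 = q.1 ∧ G'.Adj p.2 q.2) ∨ (G.Adj p.1 q.1 ∧ ∃ φ : G' ≃g G', φ p.2 = q.2)
  symm := ⟨by
    rintro p q (⟨h1, h2⟩ | ⟨h1, φ, h2⟩)
    · exact Or.inl ⟨h1.symm, h2.symm⟩
    · exact Or.inr ⟨h1.symm, φ.symm, by rw [← h2]; exact φ.symm_apply_apply _⟩⟩
  loopless := ⟨by
    rintro p (⟨_, h⟩ | ⟨h, _⟩)
    · exact G'.loopless.irrefl _ h
    · exact G.loopless.irrefl _ h⟩

end Pool.Agent.H975R2.Wreath
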