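import Pool.Agent.H975R2.Wreath.Main
set_option autoImplicit false
set_option linter.unusedSectionVars false
namespace Pool.Agent.H975R2.Wreath

open Finset

variable {V W : Type*} [Fintype V] [Fintype W]

theorem edgeless_colouring (G' : SimpleGraph W) (x0 : V) (n : ℕ) :
    (∃ c, IsEdgeColouring (wreath (⊥ : SimpleGraph V) G') n c) ↔
      ∃ c, IsEdgeColouring G' n c := by
  have hadj : ∀ p q : V × W, (wreath (⊥ : SimpleGraph V) G').Adj p q ↔
      (p.1 = q.1 ∧ G'.Adj p.2 q.2) := by
    intro p q
    simp [wreath]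
  constructor
  · rintro ⟨c, hc1, hc2⟩
    refine ⟨fun e => c (e.map (fun w => (x0, w))), ?_, ?_⟩
    · intro e he
      induction e using Sym2.ind with
      | _ u v =>
        rw [SimpleGraph.mem_edgeSet] at he
        apply hc1
        rw [Sym2.map_mk, SimpleGraph.mem_edgeSet, hadj]
        exact ⟨rfl, he⟩
    · rintro e he f hf hne ⟨u, hue, huf⟩
      obtain ⟨v, rfl⟩ := hue
      obtain ⟨v', rfl⟩ := huf
      rw [SimpleGraph.mem_edgeSet] at he hf
      simp only [Sym2.map_mk]
      refine hc2 _ ?_ _ ?_ ?_ ⟨(x0, u), by simp, by simp⟩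
      · rw [SimpleGraph.mem_edgeSet, hadj]; exact ⟨rfl, he⟩
      · rw [SimpleGraph.mem_edgeSet, hadj]; exact ⟨rfl, hf⟩
      · intro h
        rw [Sym2.eq_iff] at h
        apply hne
        rcases h with ⟨_, h⟩ | ⟨h1, h2⟩
        · rw [(Prod.mk.inj h).2]
        · exact absurd (Prod.mk.inj h2).2.symm (G'.ne_of_adj he)
  · rintro ⟨c, hc1, hc2⟩
    refine ⟨fun e => c (e.map Prod.snd), ?_, ?_⟩
    · intro e he
      induction e using Sym2.ind with
      | _ p q =>
        rw [SimpleGraph.mem_edgeSet, hadj] at he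
        apply hc1
        rw [Sym2.map_mk, SimpleGraph.mem_edgeSet]
        exact he.2
    · rintro e he f hf hne ⟨p, hpe, hpf⟩
      obtain ⟨q, rfl⟩ := hpe
      obtain ⟨q', rfl⟩ := hpf
      rw [SimpleGraph.mem_edgeSet, hadj] at he hf
      simp only [Sym2.map_mk]
      refine hc2 _ ?_ _ ?_ ?_ ⟨p.2, by simp, by simp⟩
      · rw [SimpleGraph.mem_edgeSet]; exact he.2
      · rw [SimpleGraph.mem_edgeSet]; exact hf.2
      · intro h
        rw [Sym2.eq_iff] at h
        apply hne
        rcases h with ⟨_, h⟩ | ⟨h1, h2⟩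
        · have : q = q' := Prod.ext (he.1.symm.trans hf.1) h
          rw [this]
        · exact absurd h2.symm (G'.ne_of_adj he.2)

theorem edgeless_maxDeg (G' : SimpleGraph W) (x0 : V) :
    maxDeg (wreath (⊥ : SimpleGraph V) G') = maxDeg G' := by
  classical
  letI : DecidableRel G'.Adj := Classical.decRel _
  letI : DecidableRel (wreath (⊥ : SimpleGraph V) G').Adj := Classical.decRel _
  have hadj : ∀ p q : V × W, (wreath (⊥ : SimpleGraph V) G').Adj p q ↔
      (p.1 = q.1 ∧ G'.Adj p.2 q.2) := by
    intro p q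
    simp [wreath]
  have hdeg : ∀ p : V × W, (wreath (⊥ : SimpleGraph V) G').degree p = G'.degree p.2 := by
    intro p
    rw [← SimpleGraph.card_neighborFinset_eq_degree, ← SimpleGraph.card_neighborFinset_eq_degree]
    refine Finset.card_bij' (fun q _ => q.2) (fun w _ => (p.1, w)) ?_ ?_ ?_ ?_
    · intro q hq
      rw [SimpleGraph.mem_neighborFinset, hadj] at hq
      rw [SimpleGraph.mem_neighborFinset]
      exact hq.2
    · intro w hw
      rw [SimpleGraph.mem_neighborFinset] at hw
      rw [SimpleGraph.mem_neighborFinset, hadj]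
      exact ⟨rfl, hw⟩
    · intro q hq
      rw [SimpleGraph.mem_neighborFinset, hadj] at hq
      exact Prod.ext hq.1 rfl
    · intro w _; rfl
  show (wreath (⊥ : SimpleGraph V) G').maxDegree = G'.maxDegree
  apply le_antisymm
  · apply SimpleGraph.maxDegree_le_of_forall_degree_le
    intro p
    rw [hdeg]
    exact G'.degree_le_maxDegree _
  · apply SimpleGraph.maxDegree_le_of_forall_degree_le
    intro w
    rw [← hdeg (x0, w)]
    exact SimpleGraph.degree_le_maxDegree _ _

theorem edgeless_chromIndex (G' : SimpleGraph W) (x0 : V) :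
    chromIndex (wreath (⊥ : SimpleGraph V) G') = chromIndex G' := by
  unfold chromIndex
  congr 1
  ext n
  exact edgeless_colouring G' x0 n

theorem empty_case (G : SimpleGraph V) (G' : SimpleGraph W) [IsEmpty V] :
    chromIndex (wreath G G') = maxDeg (wreath G G') := by
  have h : IsEdgeColouring (wreath G G') 0 (fun _ => 0) := by
    constructor
    · intro e he
      induction e using Sym2.ind with
      | _ p q => exact isEmptyElim p.1
    · rintro e he f hf hne ⟨p, _, _⟩
      exact isEmptyElim p.1
  have h1 := maxDeg_le_of_colouring h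
  have h2 : chromIndex (wreath G G') ≤ 0 := Nat.sInf_le ⟨_, h⟩
  omega

end Pool.Agent.H975R2.Wreath
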