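import Pool.Agent.MPd14d18.Kempe
set_option autoImplicit false
set_option linter.unusedSectionVars false
namespace Pool.Agent.H975R2.Wreath

open Finset Pool.Agent.MPd14d18

section orb

variable {W : Type*}

/-- connection by two involutions -/
def Lk (g h : W → W) (a b : W) : Prop :=
  Relation.ReflTransGen (fun u v => v = g u ∨ v = h u) a b

theorem Lk.refl (g h : W → W) (a : W) : Lk g h a a := Relation.ReflTransGen.refl

theorem Lk.trans {g h : W → W} {a b c : W} (h1 : Lk g h a b) (h2 : Lk g h b c) :
    Lk g h a c := Relation.ReflTransGen.trans h1 h2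

theorem Lk.symm {g h : W → W} (hg : ∀ v, g (g v) = v) (hh : ∀ v, h (h v) = v) {a b : W}
    (h1 : Lk g h a b) : Lk g h b a := by
  unfold Lk at h1 ⊢
  induction h1 with
  | refl => exact Relation.ReflTransGen.refl
  | tail _ hbc ih =>
    refine Relation.ReflTransGen.head ?_ ih
    rcases hbc with rfl | rfl
    · left; rw [hg]
    · right; rw [hh]

theorem Lk.left {g h : W → W} {a b : W} (h1 : Lk g h a b) : Lk g h a (g b) :=
  Relation.ReflTransGen.tail h1 (Or.inl rfl)

theorem Lk.right {g h : W → W} {a b : W} (h1 : Lk g h a b) : Lk g h a (h b) :=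
  Relation.ReflTransGen.tail h1 (Or.inr rfl)

/-- In the component of an `h`-fixed point there is at most one `g`-fixed point. -/
theorem uniq_fixed [Finite W] (g h : W → W)
    (hg : ∀ v, g (g v) = v) (hh : ∀ v, h (h v) = v) (x y z : W) (hx : h x = x)
    (hy : g y = y) (hz : g z = z) (hxy : Lk g h x y) (hxz : Lk g h x z) : y = z := by
  classical
  let p : Equiv.Perm W := ⟨fun v => h (g v), fun v => g (h v),
    fun v => by simp [hg, hh], fun v => by simp [hg, hh]⟩
  let hp : Equiv.Perm W := ⟨h, h, hh, hh⟩
  have hconj : hp * p * hp⁻¹ = p⁻¹ := by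
    ext w
    show h (h (g (h w))) = g (h w)
    rw [hh]
  have key : ∀ k : ℤ, ∀ w, h ((p ^ k) w) = (p ^ (-k)) (h w) := by
    intro k w
    have h1 : hp * p ^ k * hp⁻¹ = p ^ (-k) := by
      rw [← conj_zpow, hconj, inv_zpow, zpow_neg]
    have h2 : hp * p ^ k = p ^ (-k) * hp := by
      rw [← h1]; group
    have := congrArg (fun q : Equiv.Perm W => q w) h2
    exact this
  have gkey : ∀ k : ℤ, g ((p ^ k) x) = (p ^ (-(k + 1))) x := by
    intro k
    have h1 : (p ^ (k + 1)) x = h (g ((p ^ k) x)) := by
      rw [add_comm, zpow_add, zpow_one]; rfl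
    have h2 := key (k + 1) x
    rw [hx, h1, hh] at h2
    exact h2
  have rep : ∀ w, Lk g h x w → ∃ k : ℤ, w = (p ^ k) x := by
    intro w hw
    unfold Lk at hw
    induction hw with
    | refl => exact ⟨0, by simp⟩
    | tail _ hbc ih =>
      obtain ⟨k, rfl⟩ := ih
      rcases hbc with rfl | rfl
      · exact ⟨_, gkey k⟩
      · exact ⟨-k, by rw [key, hx]⟩
  obtain ⟨k, rfl⟩ := rep y hxy
  obtain ⟨l, rfl⟩ := rep z hxz
  have per : ∀ k : ℤ, g ((p ^ k) x) = (p ^ k) x →
      ((MulAction.period p x : ℕ) : ℤ) ∣ 2 * k + 1 := by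
    intro k hk
    rw [gkey] at hk
    rw [← MulAction.zpow_smul_eq_iff_period_dvd]
    show (p ^ (2 * k + 1)) x = x
    have h3 : (p ^ (2 * k + 1)) x = (p ^ (k + 1)) ((p ^ k) x) := by
      have : (2 * k + 1) = (k + 1) + k := by ring
      rw [this, zpow_add]; rfl
    rw [h3, ← hk]
    have h4 : (p ^ (k + 1)) ((p ^ (-(k + 1))) x) = (p ^ (k + 1) * p ^ (-(k + 1))) x := rfl
    rw [h4, ← zpow_add]; simp
  obtain ⟨s, hs⟩ := per k hy
  obtain ⟨t, ht⟩ := per l hz
  set N : ℤ := ((MulAction.period p x : ℕ) : ℤ) with hN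
  have hNodd : N % 2 = 1 := by
    rcases Int.emod_two_eq_zero_or_one N with h0 | h0
    · exfalso
      have : (2 * k + 1) % 2 = 0 := by
        rw [hs, Int.mul_emod, h0]; simp
      omega
    · exact h0
  have hdvd : N ∣ k - l := by
    have h1 : N ∣ 2 * (k - l) := ⟨s - t, by linarith [mul_sub N s t]⟩
    have hcop : IsCoprime N 2 := by
      rw [Int.isCoprime_iff_gcd_eq_one]
      have h2 : Int.gcd N 2 ∣ 2 := Int.gcd_dvd_natAbs_right N 2
      rcases (Nat.dvd_prime Nat.prime_two).mp h2 with h3 | h3
      · exact h3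
      · exfalso
        have h4 : ((Int.gcd N 2 : ℕ) : ℤ) ∣ N := Int.gcd_dvd_left N 2
        rw [h3] at h4
        obtain ⟨r, hr⟩ := h4
        omega
    exact hcop.dvd_of_dvd_mul_left h1
  rw [← MulAction.zpow_smul_eq_iff_period_dvd] at hdvd
  have h3 : (p ^ (k - l)) x = x := hdvd
  have h4 : (p ^ k) x = (p ^ l) ((p ^ (k - l)) x) := by
    have : (p ^ l) ((p ^ (k - l)) x) = (p ^ l * p ^ (k - l)) x := rfl
    rw [this, ← zpow_add]; congr 2; ring
  rw [h4, h3]

end orb

section fan

variable {W : Type*} [Fintype W] [DecidableEq W]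

/-- Multi-fans at `x` starting from the uncoloured edge `x y0`. -/
inductive Fan (L : Finset ℕ) (m : ℕ → W → W) (x y0 : W) : List W → Prop
  | base : Fan L m x y0 [y0]
  | step (l : List W) (c : ℕ) (y z : W) : Fan L m x y0 l → c ∈ L → y ∈ l → m c y = y →
      m c x = z → z ≠ x → z ∉ l → Fan L m x y0 (z :: l)

variable {L : Finset ℕ} {x y0 : W}

theorem Fan.congr {m m' : ℕ → W → W} {l : List W} (hF : Fan L m x y0 l)
    (h1 : ∀ c ∈ L, m c x ∈ l → m' c x = m c x)
    (h2 : ∀ c ∈ L, ∀ y ∈ l, m c x ∈ l → m c y = y → m' c y = y) : Fan L m' x y0 l := by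
  induction hF with
  | base => exact Fan.base
  | step l c y z hl hc hy hcy hz hzx hzl ih =>
    refine Fan.step l c y z (ih ?_ ?_) hc hy ?_ ?_ hzx hzl
    · intro c hc hcl; exact h1 c hc (List.mem_cons_of_mem _ hcl)
    · intro c hc y hy hcl hcy
      exact h2 c hc y (List.mem_cons_of_mem _ hy) (List.mem_cons_of_mem _ hcl) hcy
    · exact h2 c hc y (List.mem_cons_of_mem _ hy) (by rw [hz]; exact List.mem_cons_self) hcy
    · rw [h1 c hc (by rw [hz]; exact List.mem_cons_self), hz]

theorem Fan.not_mem {m : ℕ → W → W} {l : List W} (hxy : x ≠ y0) (hF : Fan L m x y0 l) :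
    x ∉ l := by
  induction hF with
  | base => simpa using hxy
  | step l c y z hl hc hy hcy hz hzx hzl ih =>
    rw [List.mem_cons]
    rintro (h | h)
    · exact hzx h.symm
    · exact ih h

theorem Fan.nodup {m : ℕ → W → W} {l : List W} (hF : Fan L m x y0 l) : l.Nodup := by
  induction hF with
  | base => simp
  | step l c y z hl hc hy hcy hz hzx hzl ih => exact List.nodup_cons.mpr ⟨hzl, ih⟩

theorem Fan.mem_base {m : ℕ → W → W} {l : List W} (hF : Fan L m x y0 l) : y0 ∈ l := by
  induction hF with
  | base => simp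
  | step l c y z hl hc hy hcy hz hzx hzl ih => exact List.mem_cons_of_mem _ ih

/-- Hypothesis: the colouring cannot be modified to gain the edge `x y0`. -/
def NoExt (L : Finset ℕ) (x y0 : W) (M : W → W → ℕ) : Prop :=
  ∀ m' : ℕ → W → W, (∀ c v, m' c (m' c v) = v) →
    ¬ ∀ u w, u ≠ w → mu L m' u w = M u w + if (u = x ∧ w = y0) ∨ (u = y0 ∧ w = x) then 1 else 0

theorem fanA {M : W → W → ℕ} (hxy : x ≠ y0) (hno : NoExt L x y0 M) :
    ∀ (l : List W) (m : ℕ → W → W), (∀ c v, m c (m c v) = v) →
      (∀ u w, u ≠ w → mu L m u w = M u w) → Fan L m x y0 l →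
      ∀ y ∈ l, ∀ c ∈ L, m c x = x → m c y = y → False := by
  intro l
  induction l with
  | nil => intro m _ _ _ y hy; simp at hy
  | cons a l ih =>
    intro m hm hM hF y hy c hc hcx hcy
    cases hF with
    | base =>
      rw [List.mem_singleton] at hy
      subst hy
      obtain ⟨m', h1, _, h3⟩ := add_edge L m hm c hc x y hxy hcx hcy
      exact hno m' h1 (fun u w huw => by rw [h3 u w huw, hM u w huw])
    | step l c1 y' z hl hc1 hy' hcy' hz hzx hzl =>
      rcases List.mem_cons.mp hy with rfl | hyl
      · -- `y` is the last vertex: recolour the edge `x y` with `c`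
        have hc1c : c1 ≠ c := by
          rintro rfl; exact hzx (by rw [← hz, hcx])
        have hxl : x ∉ l := hl.not_mem hxy
        have hzc1 : m c1 y = x := by rw [← hz, hm]
        let m'' : ℕ → W → W := fun c' v =>
          if v ∈ ({x, y} : Finset W) then m (Equiv.swap c1 c c') v else m c' v
        obtain ⟨k1, k2, k3⟩ := kempe L m hm c1 c hc1 hc ({x, y} : Finset W)
          (by intro w hw
              rw [mem_insert, mem_singleton] at hw ⊢
              rcases hw with rfl | rfl
              · right; exact hz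
              · left; exact hzc1)
          (by intro w hw
              rw [mem_insert, mem_singleton] at hw ⊢
              rcases hw with rfl | rfl
              · left; exact hcx
              · right; exact hcy) m'' (fun _ _ => rfl)
        refine ih m'' k1 (fun u w huw => by rw [k3, hM u w huw]) ?_ y' hy' c1 hc1 ?_ ?_
        · apply hl.congr
          · intro c' hc' hcl
            have h1 : c' ≠ c1 := by rintro rfl; exact hzl (hz ▸ hcl)
            have h2 : c' ≠ c := by rintro rfl; exact hxl (hcx ▸ hcl)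
            simp only [m'', mem_insert, true_or, if_true]
            rw [Equiv.swap_apply_of_ne_of_ne h1 h2]
          · intro c' hc' u hu _ hcu
            have h1 : u ≠ x := by rintro rfl; exact hxl hu
            have h2 : u ≠ y := by rintro rfl; exact hzl hu
            simp only [m'', mem_insert, mem_singleton, h1, h2, or_self, if_false]
            exact hcu
        · simp only [m'', mem_insert, true_or, if_true]
          rw [Equiv.swap_apply_left, hcx]
        · have h1 : y' ≠ x := by rintro rfl; exact hxl hy'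
          have h2 : y' ≠ y := by rintro rfl; exact hzl hy'
          simp only [m'', mem_insert, mem_singleton, h1, h2, or_self, if_false]
          exact hcy'
      · exact ih m hm hM hl y hyl c hc hcx hcy

theorem fanB {M : W → W → ℕ} (hxy : x ≠ y0) (hno : NoExt L x y0 M) :
    ∀ (l : List W) (m : ℕ → W → W), (∀ c v, m c (m c v) = v) →
      (∀ u w, u ≠ w → mu L m u w = M u w) → Fan L m x y0 l →
      ∀ y ∈ l, ∀ a ∈ L, m a y = y → ∀ b ∈ L, m b x = x → Lk (m a) (m b) x y := by
  intro l
  induction l with
  | nil => intro m _ _ _ y hy; simp at hy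
  | cons z0 l ih =>
    intro m hm hM hF y hy a ha hay b hb hbx
    by_contra hlk
    classical
    have hab : a ≠ b := by
      rintro rfl
      exact fanA hxy hno _ m hm hM hF y hy a ha hbx hay
    let S : Finset W := univ.filter (fun w => Lk (m a) (m b) y w)
    have hxS : x ∉ S := by
      intro h
      rw [mem_filter] at h
      exact hlk (h.2.symm (hm a) (hm b))
    have hyS : y ∈ S := by
      rw [mem_filter]; exact ⟨mem_univ _, Lk.refl _ _ _⟩
    let m' : ℕ → W → W := fun c' v => if v ∈ S then m (Equiv.swap a b c') v else m c' v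
    obtain ⟨k1, k2, k3⟩ := kempe L m hm a b ha hb S
      (by intro w hw
          rw [mem_filter] at hw ⊢
          exact ⟨mem_univ _, hw.2.left⟩)
      (by intro w hw
          rw [mem_filter] at hw ⊢
          exact ⟨mem_univ _, hw.2.right⟩) m' (fun _ _ => rfl)
    have hm'x : ∀ c, m' c x = m c x := by
      intro c; simp only [m', hxS, if_false]
    -- linked vertices are not in `S`
    have hnot : ∀ w, Lk (m a) (m b) x w → w ∉ S := by
      intro w hw h
      rw [mem_filter] at h
      exact hlk (hw.trans (h.2.symm (hm a) (hm b)))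
    have hfix : ∀ l' : List W, Fan L m x y0 l' → (∀ w ∈ l', m a w = w → w ∉ S) →
        Fan L m' x y0 l' := by
      intro l' hl' hw
      apply hl'.congr
      · intro c _ _; exact hm'x c
      · intro c hc u hu hcl hcu
        have hcb : c ≠ b := by
          rintro rfl
          rw [hbx] at hcl
          exact hl'.not_mem hxy hcl
        by_cases hca : c = a
        · subst hca
          simp only [m', hw u hu hcu, if_false]; exact hcu
        · simp only [m']
          rw [Equiv.swap_apply_of_ne_of_ne hca hcb]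
          simpa using hcu
    have hFm' : Fan L m' x y0 (z0 :: l) := by
      cases hF with
      | base => exact Fan.base
      | step l c1 y' z hl hc1 hy' hcy' hz hzx hzl =>
        have hIH := ih m hm hM hl
        have hFl : Fan L m' x y0 l := hfix l hl
          (fun w hw hwa => hnot w (hIH w hw a ha hwa b hb hbx))
        refine Fan.step l c1 y' z0 hFl hc1 hy' ?_ ?_ hzx hzl
        · have hcb : c1 ≠ b := by
            rintro rfl
            exact hzx (by rw [← hz, hbx])
          by_cases hca : c1 = a
          · subst hca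
            have : y' ∉ S := hnot y' (hIH y' hy' c1 ha hcy' b hb hbx)
            simp only [m', this, if_false]; exact hcy'
          · simp only [m']
            rw [Equiv.swap_apply_of_ne_of_ne hca hcb]
            simpa using hcy'
        · rw [hm'x]; exact hz
    refine fanA hxy hno _ m' k1 (fun u w huw => by rw [k3, hM u w huw]) hFm' y hy b hb ?_ ?_
    · rw [hm'x]; exact hbx
    · simp only [m', hyS, if_true, Equiv.swap_apply_right]; exact hay

/-- Vizing's fan inequality for multigraphs. -/
theorem fan_ineq (m : ℕ → W → W) (hm : ∀ c v, m c (m c v) = v) (hxy : x ≠ y0)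
    (hno : NoExt L x y0 (mu L m)) (b : ℕ) (hb : b ∈ L) (hbx : m b x = x) :
    ∃ Y : Finset W, y0 ∈ Y ∧ x ∉ Y ∧
      ∑ y ∈ Y, (L.filter (fun c => m c y = y)).card ≤ ∑ y ∈ Y, mu L m x y := by
  classical
  have hM : ∀ u w, u ≠ w → mu L m u w = mu L m u w := fun _ _ _ => rfl
  -- a maximal fan
  have hbd : ∀ l, Fan L m x y0 l → l.length ≤ Fintype.card W := fun l hl =>
    hl.nodup.length_le_card
  have hex : ∃ l, Fan L m x y0 l ∧ ∀ l', Fan L m x y0 l' → l'.length ≤ l.length := by
    let P : ℕ → Prop := fun n => ∃ l, Fan L m x y0 l ∧ l.length = n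
    have hP : P (Nat.findGreatest P (Fintype.card W)) := by
      apply Nat.findGreatest_spec (P := P) (m := 1)
      · exact hbd [y0] Fan.base
      · exact ⟨[y0], Fan.base, rfl⟩
    obtain ⟨l, hl, hlen⟩ := hP
    refine ⟨l, hl, fun l' hl' => ?_⟩
    rw [hlen]
    exact Nat.le_findGreatest (hbd l' hl') ⟨l', hl', rfl⟩
  obtain ⟨l, hl, hmax⟩ := hex
  have hA := fanA hxy hno l m hm hM hl
  have hB := fanB hxy hno l m hm hM hl
  have hcl : ∀ c ∈ L, ∀ y ∈ l, m c y = y → m c x ∈ l := by
    intro c hc y hy hcy
    by_contra hcon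
    have h1 : m c x ≠ x := fun h => hA y hy c hc h hcy
    have h2 := hmax _ (Fan.step l c y (m c x) hl hc hy hcy rfl h1 hcon)
    simp at h2
  refine ⟨l.toFinset, by rw [List.mem_toFinset]; exact hl.mem_base,
    by rw [List.mem_toFinset]; exact hl.not_mem hxy, ?_⟩
  have hdisj : Set.PairwiseDisjoint (l.toFinset : Set W)
      (fun y => L.filter (fun c => m c y = y)) := by
    intro y hy z hz hyz
    rw [Function.onFun, Finset.disjoint_left]
    intro c hcy hcz
    rw [mem_filter] at hcy hcz
    rw [Finset.mem_coe, List.mem_toFinset] at hy hz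
    exact hyz (uniq_fixed (m c) (m b) (hm c) (hm b) x y z hbx hcy.2 hcz.2
      (hB y hy c hcy.1 hcy.2 b hb hbx) (hB z hz c hcz.1 hcz.2 b hb hbx))
  rw [← Finset.card_biUnion hdisj]
  have h1 : ∑ y ∈ l.toFinset, mu L m x y =
      (l.toFinset.biUnion (fun y => L.filter (fun c => m c x = y))).card := by
    rw [Finset.card_biUnion]
    · exact Finset.sum_congr rfl fun y _ => mu_eq_card L m x y
    · intro y _ z _ hyz
      rw [Function.onFun, Finset.disjoint_left]
      intro c hc1 hc2
      rw [mem_filter] at hc1 hc2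
      exact hyz (hc1.2.symm.trans hc2.2)
  rw [h1]
  apply Finset.card_le_card
  intro c hc
  rw [Finset.mem_biUnion] at hc ⊢
  obtain ⟨y, hy, hcy⟩ := hc
  rw [mem_filter] at hcy
  rw [List.mem_toFinset] at hy
  refine ⟨m c x, ?_, ?_⟩
  · rw [List.mem_toFinset]; exact hcl c hcy.1 y hy hcy.2
  · rw [mem_filter]; exact ⟨hcy.1, rfl⟩

end fan

end Pool.Agent.H975R2.Wreath
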