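import Pool.Agent.H975R2.Wreath.Struct
import Pool.Agent.H975R2.Wreath.Circ
set_option autoImplicit false
set_option linter.unusedSectionVars false
namespace Pool.Agent.H975R2.Wreath

open Finset Pool.Agent.MPd14d18

section scheme

variable {W : Type*} [Fintype W] [DecidableEq W]

/-- The list of conditions for a symmetric colour scheme at the vertex `u`. -/
def SchemeAt (Adj r : W → W → Prop) (L D : ℕ) (φ : W → W → ℕ) (κ : Bool → ℕ → W → W → ℕ)
    (u : W) : Prop :=
  (∀ w, Adj u w → φ u w < D ∧ φ u w = φ w u) ∧
  (∀ w w', Adj u w → Adj u w' → w ≠ w' → φ u w ≠ φ u w') ∧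
  (∀ b i v, i < L → r u v → κ b i u v < D ∧ κ b i u v = κ (!b) i v u) ∧
  (∀ b i v w, i < L → r u v → Adj u w → κ b i u v ≠ φ u w) ∧
  (∀ b i v i' v', i < L → i' < L → r u v → r u v' → (i ≠ i' ∨ v ≠ v') →
    κ b i u v ≠ κ b i' u v') ∧
  (∀ b b' i v, 1 ≤ i → κ b i u v = κ b' i u v)

/-- an enumeration of finite sets of colours -/
theorem exists_nth : ∃ e : Finset ℕ → ℕ → ℕ, (∀ S i, i < S.card → e S i ∈ S) ∧
    ∀ S i j, i < S.card → j < S.card → e S i = e S j → i = j := by
  refine ⟨fun S i => if h : i < S.card then S.orderEmbOfFin rfl ⟨i, h⟩ else 0, ?_, ?_⟩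
  · intro S i h
    simp only [h, dif_pos]
    exact Finset.orderEmbOfFin_mem S rfl ⟨i, h⟩
  · intro S i j hi hj heq
    simp only [hi, hj, dif_pos] at heq
    have := (S.orderEmbOfFin rfl).injective heq
    exact Fin.mk.inj_iff.mp this

theorem scheme_class (Adj r : W → W → Prop) [DecidableRel Adj] [DecidableRel r]
    (asymm : ∀ u v, Adj u v → Adj v u) (airr : ∀ u, ¬ Adj u u)
    (rrefl : ∀ u, r u u)
    (rsymm : ∀ u v, r u v → r v u) (rtrans : ∀ u v w, r u v → r v w → r u w)
    (h5 : ∀ u v w, r u v → Adj u w → ∃ w', r w w' ∧ Adj v w')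
    (hdr : ∀ u v, r u v → (univ.filter (fun w => Adj u w)).card =
      (univ.filter (fun w => Adj v w)).card)
    (L D : ℕ) (hL : 1 ≤ L)
    (hD : ∀ u, L * (univ.filter (fun w => r u w)).card +
      (univ.filter (fun w => Adj u w)).card ≤ D)
    (u0 : W) :
    ∃ (φ : W → W → ℕ) (κ : Bool → ℕ → W → W → ℕ), ∀ u,
      Relation.ReflTransGen (fun a b => r a b ∨ Adj a b) u0 u → SchemeAt Adj r L D φ κ u := by
  classical
  let st : W → W → Prop := fun a b => r a b ∨ Adj a b
  let E : W → W → Prop := fun a b => Relation.ReflTransGen st a b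
  have stsymm : ∀ a b, st a b → st b a := by
    rintro a b (h | h)
    · exact Or.inl (rsymm _ _ h)
    · exact Or.inr (asymm _ _ h)
  have Esymm : ∀ a b, E a b → E b a := by
    intro a b h
    induction h with
    | refl => exact Relation.ReflTransGen.refl
    | tail _ hbc ih => exact Relation.ReflTransGen.head (stsymm _ _ hbc) ih
  let n : W → ℕ := fun u => (univ.filter (fun w => r u w)).card
  let d : W → ℕ := fun u => (univ.filter (fun w => Adj u w)).card
  have hD' : ∀ u, L * n u + d u ≤ D := hD
  have hnr : ∀ u v, r u v → n u = n v := by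
    intro u v h
    simp only [n]
    congr 1
    ext w
    simp only [mem_filter, mem_univ, true_and]
    exact ⟨fun h1 => rtrans _ _ _ (rsymm _ _ h) h1, fun h1 => rtrans _ _ _ h h1⟩
  have hdr' : ∀ u v, r u v → d u = d v := hdr
  have hnpos : ∀ u, 0 < n u := by
    intro u
    apply Finset.card_pos.mpr
    exact ⟨u, by simp [rrefl]⟩
  -- choice of `g` and `j`
  obtain ⟨g, j, hg0, hj, hgood⟩ : ∃ (g : W) (j : ℕ), E u0 g ∧ (∀ u, E u0 u → 2 * j < n u) ∧
      (L * n g + d g < D ∨ n g ≤ 2 * j + 2) := by
    by_cases hcase : ∃ g, E u0 g ∧ L * n g + d g < D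
    · obtain ⟨g, hg, hlt⟩ := hcase
      exact ⟨g, 0, hg, fun u _ => by have := hnpos u; omega, Or.inl hlt⟩
    · obtain ⟨g, hg, hmin⟩ := Finset.exists_min_image (univ.filter (fun u => E u0 u)) n
        ⟨u0, mem_filter.mpr ⟨mem_univ _, Relation.ReflTransGen.refl⟩⟩
      refine ⟨g, (n g - 1) / 2, (mem_filter.mp hg).2, ?_, ?_⟩
      · intro u hu
        have h1 := hmin u (mem_filter.mpr ⟨mem_univ _, hu⟩)
        have h2 := hnpos g
        omega
      · right; omega
  obtain ⟨F, f, hFs, hFr, hFu⟩ := exists_circ r rrefl rsymm rtrans j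
  -- the multigraph
  let K : ℕ := D - 2 * j
  have hKD : K + 2 * j = D := by
    have h1 := hj g hg0
    have h2 := hD' g
    have h3 : n g ≤ L * n g := Nat.le_mul_of_pos_left _ hL
    simp only [K]; omega
  let base : W → W → ℕ := fun u w => (if Adj u w then 1 else 0) +
    (if r u w then (L - 1) + (if F u w then 0 else 1) else 0)
  let M : W → W → ℕ := fun u w => if E u0 u then base u w else 0
  have hbs : ∀ u w, base u w = base w u := by
    intro u w
    simp only [base]
    have e1 : Adj u w ↔ Adj w u := ⟨asymm _ _, asymm _ _⟩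
    have e2 : r u w ↔ r w u := ⟨rsymm _ _, rsymm _ _⟩
    have e3 : F u w ↔ F w u := ⟨hFs _ _, hFs _ _⟩
    simp only [e1, e2, e3]
  have hbE : ∀ u w, base u w ≠ 0 → st u w := by
    intro u w h
    by_contra hcon
    simp only [st, not_or] at hcon
    apply h
    simp only [base, hcon.1, hcon.2, if_false]
  have hMs : ∀ u w, M u w = M w u := by
    intro u w
    by_cases hb : base u w = 0
    · have hb' : base w u = 0 := by rw [← hbs]; exact hb
      simp only [M, hb, hb']
      split_ifs <;> rfl
    · have h1 := hbE u w hb
      have h2 : E u0 u ↔ E u0 w :=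
        ⟨fun h => Relation.ReflTransGen.tail h h1,
          fun h => Relation.ReflTransGen.tail h (stsymm _ _ h1)⟩
      simp only [M, h2, hbs u w]
  -- degrees
  have hdegM : ∀ u, E u0 u → deg M u + 2 * j + L = d u + L * n u := by
    intro u hu
    obtain ⟨⟨S, hS, hSF⟩, -, -, -⟩ := hFu u (hj u hu)
    have e1 : deg M u = ∑ w ∈ univ.erase u, base u w := by
      unfold deg
      exact Finset.sum_congr rfl fun w _ => by simp only [M, hu, if_true]
    have e2 : ∑ w ∈ univ.erase u, base u w + ∑ w ∈ univ.erase u, (if F u w then 1 else 0) =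
        ∑ w ∈ univ.erase u, (if Adj u w then 1 else 0) +
          ∑ w ∈ univ.erase u, (if r u w then L else 0) := by
      rw [← Finset.sum_add_distrib, ← Finset.sum_add_distrib]
      refine Finset.sum_congr rfl fun w _ => ?_
      simp only [base]
      by_cases hF : F u w
      · have h1 := (hFr u w hF).1
        simp only [hF, h1, if_true]
        split_ifs <;> omega
      · simp only [hF, if_false]
        by_cases h1 : r u w
        · simp only [h1, if_true]
          split_ifs <;> omega
        · simp only [h1, if_false]
    have e3 : ∑ w ∈ univ.erase u, (if F u w then 1 else 0) = 2 * j := by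
      rw [← Finset.card_filter, ← hS]
      congr 1
      ext w
      rw [mem_filter, mem_erase, hSF]
      constructor
      · exact fun h => h.2
      · exact fun h => ⟨⟨(hFr u w h).2.symm, mem_univ _⟩, h⟩
    have e4 : ∑ w ∈ univ.erase u, (if Adj u w then 1 else 0) = d u := by
      rw [← Finset.card_filter]
      simp only [d]
      congr 1
      ext w
      rw [mem_filter, mem_filter, mem_erase]
      constructor
      · exact fun h => ⟨mem_univ _, h.2⟩
      · intro h
        refine ⟨⟨?_, mem_univ _⟩, h.2⟩
        rintro rfl; exact airr _ h.2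
    have e5 : ∑ w ∈ univ.erase u, (if r u w then L else 0) + L = L * n u := by
      have h1 : ∑ w, (if r u w then L else 0) = L * n u := by
        rw [← Finset.sum_filter, Finset.sum_const, smul_eq_mul, mul_comm]
      rw [← h1, ← Finset.add_sum_erase univ (fun w => if r u w then L else 0) (mem_univ u),
        if_pos (rrefl u), add_comm]
    omega
  have hdeg0 : ∀ u, ¬ E u0 u → deg M u = 0 := by
    intro u hu
    unfold deg
    apply Finset.sum_eq_zero
    intro w _
    simp only [M, hu, if_false]
  have hcol : Colorable (range K) M := by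
    refine colorable_of_good (range K) L M r (fun a b => Adj a b ∧ E u0 a) g hMs hL
      ?_ ?_ ?_ ?_ rsymm rtrans ?_ ?_ ?_ ?_
    · intro u
      rw [card_range]
      by_cases hu : E u0 u
      · have h1 := hdegM u hu
        have h2 := hD' u
        omega
      · rw [hdeg0 u hu]
        have h1 := hdegM g hg0
        have h2 := hD' g
        omega
    · intro u w _
      simp only [M, base]
      split_ifs <;> omega
    · intro u w _ h
      by_contra hr
      simp only [M, base, hr, if_false] at h
      split_ifs at h <;> omega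
    · intro u v huv
      by_cases hu : E u0 u
      · have hv : E u0 v := Relation.ReflTransGen.tail hu (Or.inl huv)
        have h1 := hdegM u hu
        have h2 := hdegM v hv
        rw [hnr u v huv, hdr' u v huv] at h1
        omega
      · have hv : ¬ E u0 v := fun hv => hu (Relation.ReflTransGen.tail hv
          (Or.inl (rsymm _ _ huv)))
        rw [hdeg0 u hu, hdeg0 v hv]
    · rintro u v w huv ⟨h1, h2⟩
      obtain ⟨w', hw', hA⟩ := h5 u v w huv h1
      exact ⟨w', hw', hA, Relation.ReflTransGen.tail h2 (Or.inl huv)⟩
    · rintro u w ⟨h1, h2⟩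
      refine ⟨fun h => airr u (h ▸ h1), ?_⟩
      simp only [M, base, h1, h2, if_true]
      omega
    · intro g' hgg'
      have hg' : E u0 g' := Relation.ReflTransGen.tail hg0 (Or.inl hgg')
      have hd1 := hdegM g' hg'
      rcases hgood with hgood | hgood
      · left
        rw [card_range]
        rw [hnr g g' hgg', hdr' g g' hgg'] at hgood
        omega
      · right
        intro y1 y2 hy1 hy2 hM1 hM2
        by_contra hne
        have hngg : n g' = n g := (hnr g g' hgg').symm
        obtain ⟨⟨S, hS, hSF⟩, -, -, -⟩ := hFu g' (hj g' hg')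
        have hfact : ∀ y, M g' y = L + 1 → r g' y ∧ ¬ F g' y := by
          intro y hy
          simp only [M, base, hg', if_true] at hy
          constructor
          · by_contra hr
            simp only [hr, if_false] at hy
            split_ifs at hy <;> omega
          · intro hF
            simp only [hF, if_true] at hy
            split_ifs at hy <;> omega
        obtain ⟨a1, a2⟩ := hfact y1 hM1
        obtain ⟨b1, b2⟩ := hfact y2 hM2
        have hsub : (insert g' (insert y1 (insert y2 S))) ⊆
            univ.filter (fun w => r g' w) := by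
          intro w hw
          rw [mem_insert, mem_insert, mem_insert] at hw
          rw [mem_filter]
          refine ⟨mem_univ _, ?_⟩
          rcases hw with rfl | rfl | rfl | hw
          · exact rrefl _
          · exact a1
          · exact b1
          · exact (hFr g' w ((hSF w).mp hw)).1
        have hcard := Finset.card_le_card hsub
        have hg'S : g' ∉ S := fun h => (hFr g' g' ((hSF g').mp h)).2 rfl
        rw [Finset.card_insert_of_notMem, Finset.card_insert_of_notMem,
          Finset.card_insert_of_notMem, hS] at hcard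
        · have : (univ.filter (fun w => r g' w)).card = n g' := rfl
          omega
        · exact fun h => b2 ((hSF y2).mp h)
        · rw [mem_insert]
          rintro (h | h)
          · exact hne h
          · exact a2 ((hSF y1).mp h)
        · rw [mem_insert, mem_insert]
          rintro (h | h | h)
          · exact hy1 h.symm
          · exact hy2 h.symm
          · exact hg'S h
    · intro x w hxw hpos
      have hx : E u0 x := by
        by_contra hx
        simp only [M, hx, if_false] at hpos
        omega
      have hxg : E x g := Relation.ReflTransGen.trans (Esymm _ _ hx) hg0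
      have hgen : ∀ z, E x z → E u0 z ∧
          Relation.ReflTransGen (fun a b => r a b ∨ (Adj a b ∧ E u0 a)) x z := by
        intro z hz
        induction hz with
        | refl => exact ⟨hx, Relation.ReflTransGen.refl⟩
        | tail _ hbc ih =>
          refine ⟨Relation.ReflTransGen.tail ih.1 hbc, Relation.ReflTransGen.tail ih.2 ?_⟩
          rcases hbc with h | h
          · exact Or.inl h
          · exact Or.inr ⟨h, ih.1⟩
      exact (hgen g hxg).2
  obtain ⟨m, hm, hmu⟩ := hcol
  obtain ⟨nth, hnth1, hnth2⟩ := exists_nth
  -- palettes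
  let C : W → W → Finset ℕ := fun u w => (range K).filter (fun c => m c u = w)
  have hCs : ∀ u w, C u w = C w u := by
    intro u w
    ext c
    simp only [C, mem_filter]
    constructor
    · rintro ⟨h1, h2⟩; exact ⟨h1, by rw [← h2, hm]⟩
    · rintro ⟨h1, h2⟩; exact ⟨h1, by rw [← h2, hm]⟩
  have hCcard : ∀ u w, u ≠ w → (C u w).card = M u w := by
    intro u w huw
    rw [← hmu u w huw, mu_eq_card]
  have hCself : ∀ u, E u0 u → L ≤ (C u u).card := by
    intro u hu
    have h1 := mu_self_add_deg (range K) m u
    have h2 : deg (mu (range K) m) u = deg M u := deg_congr u (fun w huw => hmu u w huw)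
    have h3 : ((range K).filter (fun c => m c u = u)).card = (C u u).card := rfl
    rw [card_range, h2, h3] at h1
    have h4 := hdegM u hu
    have h5 := hD' u
    omega
  let a01 : W → W → ℕ := fun u w => if Adj u w then 1 else 0
  let pos : ℕ → W → W → ℕ := fun i u v => a01 u v + (if F u v then i - 1 else i)
  let φ : W → W → ℕ := fun u w => nth (C u w) 0
  let κ : Bool → ℕ → W → W → ℕ := fun b i u v =>
    if u = v then nth (C u u) i
    else if i = 0 ∧ F u v then K + (if b then f u v else f v u)
    else nth (C u v) (pos i u v)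
  refine ⟨φ, κ, fun u hu0 => ?_⟩
  have hu : E u0 u := hu0
  clear hu0
  -- facts at `u`
  have hφmem : ∀ w, Adj u w → φ u w ∈ C u w := by
    intro w hw
    apply hnth1
    rw [hCcard u w (fun h => airr u (h ▸ hw))]
    simp only [M, base, hu, hw, if_true]
    omega
  have hpos : ∀ i v, i < L → r u v → u ≠ v → ¬ (i = 0 ∧ F u v) →
      pos i u v < (C u v).card := by
    intro i v hi hr hne hn
    rw [hCcard u v hne]
    simp only [M, base, hu, hr, if_true, pos, a01]
    by_cases hF : F u v
    · have : i ≠ 0 := fun h => hn ⟨h, hF⟩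
      simp only [hF, if_true]; omega
    · simp only [hF, if_false]; omega
  have hκmem : ∀ b i v, i < L → r u v → ¬ (u ≠ v ∧ i = 0 ∧ F u v) → κ b i u v ∈ C u v := by
    intro b i v hi hr hn
    by_cases huv : u = v
    · subst huv
      simp only [κ, if_true]
      exact hnth1 _ _ (lt_of_lt_of_le hi (hCself u hu))
    · have hn' : ¬ (i = 0 ∧ F u v) := fun h => hn ⟨huv, h⟩
      simp only [κ, huv, if_false, hn']
      exact hnth1 _ _ (hpos i v hi hr huv hn')
  have hκF : ∀ b i v, u ≠ v → i = 0 ∧ F u v → κ b i u v = K + (if b then f u v else f v u) := by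
    intro b i v huv h
    simp only [κ, huv, if_false, h, and_self, if_true]
  obtain ⟨-, hf1, hf2, hf3⟩ := hFu u (hj u hu)
  have hClt : ∀ v c, c ∈ C u v → c < K := by
    intro v c hc
    exact mem_range.mp (mem_filter.mp hc).1
  have hCdis : ∀ v v' c, c ∈ C u v → c ∈ C u v' → v = v' := by
    intro v v' c h1 h2
    exact (mem_filter.mp h1).2.symm.trans (mem_filter.mp h2).2
  refine ⟨?_, ?_, ?_, ?_, ?_, ?_⟩
  · intro w hw
    refine ⟨?_, ?_⟩
    · have := hClt w _ (hφmem w hw); omega
    · simp only [φ]; rw [hCs]
  · intro w w' hw hw' hne heq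
    apply hne
    exact hCdis w w' (φ u w) (hφmem w hw) (heq ▸ hφmem w' hw')
  · intro b i v hi hr
    constructor
    · by_cases hc : u ≠ v ∧ i = 0 ∧ F u v
      · rw [hκF b i v hc.1 hc.2]
        have h1 := hf1 v hc.2.2
        split_ifs <;> omega
      · have := hClt v _ (hκmem b i v hi hr hc); omega
    · by_cases huv : u = v
      · subst huv; simp only [κ, if_true]
      · have hvu : v ≠ u := fun h => huv h.symm
        have hFF : F u v ↔ F v u := ⟨hFs _ _, hFs _ _⟩
        have hAA : Adj u v ↔ Adj v u := ⟨asymm _ _, asymm _ _⟩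
        by_cases hc : i = 0 ∧ F u v
        · have hc' : i = 0 ∧ F v u := ⟨hc.1, hFs _ _ hc.2⟩
          simp only [κ, huv, hvu, if_false, hc, hc', and_self, if_true]
          cases b <;> simp
        · have hc' : ¬ (i = 0 ∧ F v u) := fun h => hc ⟨h.1, hFs _ _ h.2⟩
          simp only [κ, huv, hvu, if_false, hc, hc']
          rw [hCs u v]
          congr 1
          simp only [pos, a01, hFF, hAA]
  · intro b i v w hi hr hw heq
    have h1 := hφmem w hw
    by_cases hc : u ≠ v ∧ i = 0 ∧ F u v
    · rw [hκF b i v hc.1 hc.2] at heq
      have := hClt w _ h1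
      omega
    · have h2 := hκmem b i v hi hr hc
      rw [heq] at h2
      have h3 := hCdis v w _ h2 h1
      subst h3
      have huv : u ≠ v := fun h => airr u (h ▸ hw)
      have hn' : ¬ (i = 0 ∧ F u v) := fun h => hc ⟨huv, h⟩
      simp only [κ, huv, if_false, hn', φ] at heq
      have h4 := hnth2 _ _ _ (hpos i v hi hr huv hn') (by
        rw [hCcard u v huv]; simp only [M, base, hu, hw, if_true]; omega) heq
      simp only [pos, a01, hw, if_true] at h4
      omega
  · intro b i v i' v' hi hi' hr hr' hne heq
    by_cases hc : u ≠ v ∧ i = 0 ∧ F u v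
    · by_cases hc' : u ≠ v' ∧ i' = 0 ∧ F u v'
      · rw [hκF b i v hc.1 hc.2, hκF b i' v' hc'.1 hc'.2] at heq
        have hvv : v ≠ v' := by
          rcases hne with h | h
          · exact absurd (hc.2.1.trans hc'.2.1.symm) h
          · exact h
        cases b
        · have := hf3 v v' hc.2.2 hc'.2.2 hvv
          simp at heq
          exact this heq
        · have := hf2 v v' hc.2.2 hc'.2.2 hvv
          simp at heq
          exact this heq
      · rw [hκF b i v hc.1 hc.2] at heq
        have := hClt v' _ (hκmem b i' v' hi' hr' hc')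
        omega
    · by_cases hc' : u ≠ v' ∧ i' = 0 ∧ F u v'
      · rw [hκF b i' v' hc'.1 hc'.2] at heq
        have := hClt v _ (hκmem b i v hi hr hc)
        omega
      · have h1 := hκmem b i v hi hr hc
        have h2 := hκmem b i' v' hi' hr' hc'
        rw [heq] at h1
        have h3 := hCdis v v' _ h1 h2
        subst h3
        have hii : i ≠ i' := by
          rcases hne with h | h
          · exact h
          · exact absurd rfl h
        by_cases huv : u = v
        · subst huv
          simp only [κ, if_true] at heq
          exact hii (hnth2 _ _ _ (lt_of_lt_of_le hi (hCself u hu))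
            (lt_of_lt_of_le hi' (hCself u hu)) heq)
        · have hn : ¬ (i = 0 ∧ F u v) := fun h => hc ⟨huv, h⟩
          have hn' : ¬ (i' = 0 ∧ F u v) := fun h => hc' ⟨huv, h⟩
          simp only [κ, huv, if_false, hn, hn'] at heq
          have h4 := hnth2 _ _ _ (hpos i v hi hr huv hn) (hpos i' v hi' hr' huv hn') heq
          simp only [pos] at h4
          by_cases hF : F u v
          · have e1 : i ≠ 0 := fun h => hn ⟨h, hF⟩
            have e2 : i' ≠ 0 := fun h => hn' ⟨h, hF⟩
            simp only [hF, if_true] at h4
            omega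
          · simp only [hF, if_false] at h4
            omega
  · intro b b' i v hi
    have hi0 : ¬ (i = 0 ∧ F u v) := fun h => by omega
    simp only [κ, hi0, if_false]

end scheme

end Pool.Agent.H975R2.Wreath
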