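import Pool.Agent.H975R2.Wreath.Defs
import Pool.Agent.H975R2.Wreath.Scheme
set_option autoImplicit false
set_option linter.unusedSectionVars false
namespace Pool.Agent.H975R2.Wreath

open Finset

theorem maxDeg_le_of_colouring {V : Type*} [Fintype V] {H : SimpleGraph V} {n : ℕ}
    {c : Sym2 V → ℕ} (hc : IsEdgeColouring H n c) : maxDeg H ≤ n := by
  classical
  letI : DecidableRel H.Adj := Classical.decRel _
  show H.maxDegree ≤ n
  apply SimpleGraph.maxDegree_le_of_forall_degree_le
  intro v
  rw [← SimpleGraph.card_neighborFinset_eq_degree, ← Finset.card_range n]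
  apply Finset.card_le_card_of_injOn (fun w => c s(v, w))
  · intro w hw
    rw [Finset.mem_coe, SimpleGraph.mem_neighborFinset] at hw
    rw [Finset.mem_coe, mem_range]
    exact hc.1 _ (SimpleGraph.mem_edgeSet H |>.mpr hw)
  · intro w hw w' hw' heq
    rw [Finset.mem_coe, SimpleGraph.mem_neighborFinset] at hw hw'
    by_contra hne
    refine hc.2 s(v, w) (SimpleGraph.mem_edgeSet H |>.mpr hw) s(v, w')
      (SimpleGraph.mem_edgeSet H |>.mpr hw') ?_ ⟨v, by simp, by simp⟩ heq
    intro h
    rw [Sym2.eq_iff] at h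
    rcases h with ⟨_, h⟩ | ⟨h1, h2⟩
    · exact hne h
    · exact hne (h2.trans h1)

theorem chromIndex_eq_maxDeg_of_colouring {V : Type*} [Fintype V] {H : SimpleGraph V}
    {c : Sym2 V → ℕ} (hc : IsEdgeColouring H (maxDeg H) c) : chromIndex H = maxDeg H := by
  apply le_antisymm
  · exact Nat.sInf_le ⟨c, hc⟩
  · obtain ⟨c', hc'⟩ := Nat.sInf_mem (s := {n | ∃ c, IsEdgeColouring H n c}) ⟨_, c, hc⟩
    exact maxDeg_le_of_colouring hc'

section main

variable {V W : Type*} [Fintype V] [Fintype W]

/-- The degree bound. -/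
theorem deg_bound (G : SimpleGraph V) (G' : SimpleGraph W) [DecidableRel G'.Adj]
    [DecidableRel (fun u w : W => ∃ φ : G' ≃g G', φ u = w)] (u : W) [Nonempty V] :
    maxDeg G * (univ.filter (fun w => ∃ φ : G' ≃g G', φ u = w)).card +
      (univ.filter (fun w => G'.Adj u w)).card ≤ maxDeg (wreath G G') := by
  classical
  letI : DecidableRel G.Adj := Classical.decRel _
  letI : DecidableRel (wreath G G').Adj := Classical.decRel _
  obtain ⟨x, hx⟩ := G.exists_maximal_degree_vertex
  have h1 : maxDeg G = (G.neighborFinset x).card := by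
    rw [SimpleGraph.card_neighborFinset_eq_degree, ← hx]
    rfl
  have h2 : (wreath G G').degree (x, u) ≤ maxDeg (wreath G G') :=
    (wreath G G').degree_le_maxDegree (x, u)
  refine le_trans ?_ h2
  rw [h1, ← Finset.card_product, ← SimpleGraph.card_neighborFinset_eq_degree]
  have h3 : ((univ.filter (fun w => G'.Adj u w)).map
      ⟨fun w => (x, w), fun a b h => (Prod.mk.inj h).2⟩).card =
      (univ.filter (fun w => G'.Adj u w)).card := Finset.card_map _
  rw [← h3, ← Finset.card_union_of_disjoint]
  · apply Finset.card_le_card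
    intro q hq
    rw [SimpleGraph.mem_neighborFinset]
    rw [mem_union, mem_product, mem_map] at hq
    rcases hq with ⟨ha, hb⟩ | ⟨w, hw, rfl⟩
    · rw [SimpleGraph.mem_neighborFinset] at ha
      exact Or.inr ⟨ha, (mem_filter.mp hb).2⟩
    · exact Or.inl ⟨rfl, (mem_filter.mp hw).2⟩
  · rw [Finset.disjoint_left]
    intro q hq hq'
    rw [mem_product, SimpleGraph.mem_neighborFinset] at hq
    rw [mem_map] at hq'
    obtain ⟨w, _, rfl⟩ := hq'
    exact G.loopless.irrefl _ hq.1

/-- Main colouring theorem: a class one graph with an edge gives a class one wreath product. -/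
theorem exists_colouring (G : SimpleGraph V) (G' : SimpleGraph W) (hG : G ≠ ⊥)
    (hclass : chromIndex G = maxDeg G) :
    ∃ c, IsEdgeColouring (wreath G G') (maxDeg (wreath G G')) c := by
  classical
  obtain ⟨a, b, hab⟩ : ∃ a b, G.Adj a b := by
    by_contra hcon
    push Not at hcon
    apply hG
    ext a b
    simp [hcon a b]
  haveI : Nonempty V := ⟨a⟩
  let L := maxDeg G
  let D := maxDeg (wreath G G')
  have hL : 1 ≤ L := by
    letI : DecidableRel G.Adj := Classical.decRel _
    have h1 : G.degree a ≤ G.maxDegree := G.degree_le_maxDegree a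
    have h2 : 0 < G.degree a := by
      rw [SimpleGraph.degree_pos_iff_exists_adj]
      exact ⟨b, hab⟩
    exact le_trans h2 h1
  -- a colouring of `G`
  obtain ⟨g, hg⟩ : ∃ g, IsEdgeColouring G L g := by
    have hne : {n | ∃ c, IsEdgeColouring G n c}.Nonempty := by
      by_contra hcon
      rw [Set.not_nonempty_iff_eq_empty] at hcon
      have h1 : chromIndex G = 0 := by
        unfold chromIndex; rw [hcon]; simp
      rw [hclass] at h1
      have : L = maxDeg G := rfl
      omega
    have h2 := Nat.sInf_mem hne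
    have h3 : sInf {n | ∃ c, IsEdgeColouring G n c} = L := hclass
    rw [h3] at h2
    exact h2
  have hgne : ∀ x y y', G.Adj x y → G.Adj x y' → y ≠ y' → g s(x, y) ≠ g s(x, y') := by
    intro x y y' h1 h2 hne
    refine hg.2 _ ((SimpleGraph.mem_edgeSet G).mpr h1) _ ((SimpleGraph.mem_edgeSet G).mpr h2)
      ?_ ⟨x, by simp, by simp⟩
    intro h
    rw [Sym2.eq_iff] at h
    rcases h with ⟨_, h⟩ | ⟨h3, h4⟩
    · exact hne h
    · exact hne (h4.trans h3)
  -- orbits
  let r : W → W → Prop := fun u w => ∃ φ : G' ≃g G', φ u = w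
  have rrefl : ∀ u, r u u := fun u => ⟨RelIso.refl _, rfl⟩
  have rsymm : ∀ u v, r u v → r v u := by
    rintro u v ⟨φ, rfl⟩
    exact ⟨φ.symm, φ.symm_apply_apply u⟩
  have rtrans : ∀ u v w, r u v → r v w → r u w := by
    rintro u v w ⟨φ, rfl⟩ ⟨ψ, rfl⟩
    exact ⟨φ.trans ψ, rfl⟩
  have h5 : ∀ u v w, r u v → G'.Adj u w → ∃ w', r w w' ∧ G'.Adj v w' := by
    rintro u v w ⟨φ, rfl⟩ h
    exact ⟨φ w, ⟨φ, rfl⟩, φ.map_adj_iff.mpr h⟩
  have hdr : ∀ u v, r u v → (univ.filter (fun w => G'.Adj u w)).card =
      (univ.filter (fun w => G'.Adj v w)).card := by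
    rintro u v ⟨φ, rfl⟩
    refine Finset.card_bij' (fun w _ => φ w) (fun w _ => φ.symm w) ?_ ?_ ?_ ?_
    · intro w hw
      rw [mem_filter] at hw ⊢
      exact ⟨mem_univ _, φ.map_adj_iff.mpr hw.2⟩
    · intro w hw
      rw [mem_filter] at hw ⊢
      refine ⟨mem_univ _, ?_⟩
      rw [← φ.map_adj_iff, φ.apply_symm_apply]
      exact hw.2
    · intro w _; exact φ.symm_apply_apply w
    · intro w _; exact φ.apply_symm_apply w
  have hDb : ∀ u, L * (univ.filter (fun w => r u w)).card +
      (univ.filter (fun w => G'.Adj u w)).card ≤ D := fun u => deg_bound G G' u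
  -- the scheme on each class
  let st : W → W → Prop := fun a b => r a b ∨ G'.Adj a b
  have stsymm : ∀ a b, st a b → st b a := by
    rintro a b (h | h)
    · exact Or.inl (rsymm _ _ h)
    · exact Or.inr h.symm
  let E : Setoid W := ⟨Relation.ReflTransGen st, ⟨fun a => Relation.ReflTransGen.refl, by
    intro a b h
    induction h with
    | refl => exact Relation.ReflTransGen.refl
    | tail _ hbc ih => exact Relation.ReflTransGen.head (stsymm _ _ hbc) ih,
    fun h1 h2 => Relation.ReflTransGen.trans h1 h2⟩⟩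
  have hsch := fun u0 => scheme_class G'.Adj r (fun u v h => h.symm)
    (fun u => G'.loopless.irrefl u) rrefl rsymm rtrans h5 hdr L D hL hDb u0
  choose Φ Κ hΦ using hsch
  let rep : W → W := fun u => (Quotient.mk E u).out
  have hrep : ∀ u, Relation.ReflTransGen st (rep u) u := fun u =>
    (Quotient.exact (Quotient.out_eq (Quotient.mk E u)) : E (rep u) u)
  have hrepeq : ∀ u w, st u w → rep u = rep w := by
    intro u w h
    simp only [rep]
    congr 1
    exact Quotient.sound (Relation.ReflTransGen.single h)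
  let φ : W → W → ℕ := fun u w => Φ (rep u) u w
  let κ : Bool → ℕ → W → W → ℕ := fun b i u v => Κ (rep u) b i u v
  have hS := fun u => hΦ (rep u) u (hrep u)
  let e := Fintype.equivFin V
  let col : V × W → V × W → ℕ := fun p q =>
    if p.1 = q.1 then φ p.2 q.2 else κ (decide (e p.1 < e q.1)) (g s(p.1, q.1)) p.2 q.2
  have hgL : ∀ x y, G.Adj x y → g s(x, y) < L := fun x y h =>
    hg.1 _ ((SimpleGraph.mem_edgeSet G).mpr h)
  have hcol1 : ∀ p q, (wreath G G').Adj p q → col p q < D ∧ col p q = col q p := by
    rintro ⟨x, u⟩ ⟨y, v⟩ (⟨hxy, huv⟩ | ⟨hxy, hr⟩)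
    · simp only at hxy huv
      subst hxy
      obtain ⟨s1, -⟩ := hS u
      obtain ⟨t1, t2⟩ := s1 v huv
      simp only [col, if_true]
      refine ⟨t1, ?_⟩
      have h1 : rep u = rep v := hrepeq u v (Or.inr huv)
      simp only [φ]
      rw [t2, h1]
    · simp only at hxy hr
      have hne : x ≠ y := G.ne_of_adj hxy
      obtain ⟨-, -, s3, -⟩ := hS u
      obtain ⟨t1, t2⟩ := s3 (decide (e x < e y)) (g s(x, y)) v (hgL x y hxy) hr
      simp only [col, hne, hne.symm, if_false]
      refine ⟨t1, ?_⟩
      have h1 : rep u = rep v := hrepeq u v (Or.inl hr)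
      have h2 : (!(decide (e x < e y))) = decide (e y < e x) := by
        have : e x ≠ e y := fun h => hne (e.injective h)
        rw [← decide_not]
        apply decide_eq_decide.mpr
        constructor
        · intro h; exact lt_of_le_of_ne (not_lt.mp h) this.symm
        · intro h; exact not_lt.mpr h.le
      simp only [κ]
      rw [t2, h1, h2, Sym2.eq_swap]
  have hcol2 : ∀ p q q', (wreath G G').Adj p q → (wreath G G').Adj p q' → q ≠ q' →
      col p q ≠ col p q' := by
    rintro ⟨x, u⟩ ⟨y, v⟩ ⟨y', v'⟩ h h' hne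
    obtain ⟨s1, s2, s3, s4, s5, s6⟩ := hS u
    rcases h with ⟨hxy, huv⟩ | ⟨hxy, hr⟩
    · simp only at hxy huv
      subst hxy
      rcases h' with ⟨hxy', huv'⟩ | ⟨hxy', hr'⟩
      · simp only at hxy' huv'
        subst hxy'
        simp only [col, if_true]
        apply s2 v v' huv huv'
        rintro rfl
        exact hne rfl
      · simp only at hxy' hr'
        have hne' : x ≠ y' := G.ne_of_adj hxy'
        simp only [col, hne', if_true, if_false]
        exact (s4 _ _ v' v (hgL x y' hxy') hr' huv).symm
    · simp only at hxy hr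
      have hxy1 : x ≠ y := G.ne_of_adj hxy
      rcases h' with ⟨hxy', huv'⟩ | ⟨hxy', hr'⟩
      · simp only at hxy' huv'
        subst hxy'
        simp only [col, hxy1, if_true, if_false]
        exact s4 _ _ v v' (hgL x y hxy) hr huv'
      · simp only at hxy' hr'
        have hxy1' : x ≠ y' := G.ne_of_adj hxy'
        simp only [col, hxy1, hxy1', if_false]
        by_cases hyy : y = y'
        · subst hyy
          apply s5 _ _ v _ v' (hgL x y hxy) (hgL x y hxy) hr hr'
          right
          rintro rfl
          exact hne rfl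
        · have hi := hgne x y y' hxy hxy' hyy
          by_cases h0 : 1 ≤ g s(x, y)
          · have := s6 (decide (e x < e y)) (decide (e x < e y')) (g s(x, y)) v h0
            simp only [κ]
            rw [this]
            exact s5 _ _ v _ v' (hgL x y hxy) (hgL x y' hxy') hr hr' (Or.inl hi)
          · have h1 : 1 ≤ g s(x, y') := by omega
            have := s6 (decide (e x < e y')) (decide (e x < e y)) (g s(x, y')) v' h1
            simp only [κ]
            rw [this]
            exact s5 _ _ v _ v' (hgL x y hxy) (hgL x y' hxy') hr hr' (Or.inl hi)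
  -- the colouring of the edges
  let col' : V × W → V × W → ℕ := fun p q => if (wreath G G').Adj p q then col p q else 0
  have hcol's : ∀ p q, col' p q = col' q p := by
    intro p q
    simp only [col']
    by_cases h : (wreath G G').Adj p q
    · rw [if_pos h, if_pos h.symm, (hcol1 p q h).2]
    · rw [if_neg h, if_neg (fun h' => h h'.symm)]
  refine ⟨Sym2.lift ⟨col', hcol's⟩, ?_, ?_⟩
  · intro s hs
    induction s using Sym2.ind with
    | _ p q =>
      rw [SimpleGraph.mem_edgeSet] at hs
      rw [Sym2.lift_mk]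
      simp only [col', hs, if_true]
      exact (hcol1 p q hs).1
  · rintro s hs t ht hne ⟨p, hps, hpt⟩
    obtain ⟨q, rfl⟩ := hps
    obtain ⟨q', rfl⟩ := hpt
    rw [SimpleGraph.mem_edgeSet] at hs ht
    rw [Sym2.lift_mk, Sym2.lift_mk]
    simp only [col', hs, ht, if_true]
    apply hcol2 p q q' hs ht
    rintro rfl
    exact hne rfl

end main

end Pool.Agent.H975R2.Wreath
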