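import Pool.Agent.H975R2.Wreath.Crit
set_option autoImplicit false
set_option linter.unusedSectionVars false
namespace Pool.Agent.H975R2.Wreath

open Finset Pool.Agent.MPd14d18

section struct

variable {W : Type*} [Fintype W] [DecidableEq W]

/-- Key structural lemma: a multigraph with slack `L`, multiplicities at most `L + 1`, where the
pairs of multiplicity `L + 1` lie inside orbits, is colourable as soon as each component
contains a good orbit. -/
theorem colorable_of_good (Lc : Finset ℕ) (L : ℕ) (M : W → W → ℕ) (r A : W → W → Prop) (g : W)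
    (hsymm : ∀ u w, M u w = M w u) (hL : 1 ≤ L)
    (h1 : ∀ u, deg M u + L ≤ Lc.card)
    (h2 : ∀ u w, u ≠ w → M u w ≤ L + 1)
    (h3 : ∀ u w, u ≠ w → M u w = L + 1 → r u w)
    (h4 : ∀ u v, r u v → deg M u = deg M v)
    (rsymm : ∀ u v, r u v → r v u) (rtrans : ∀ u v w, r u v → r v w → r u w)
    (h5 : ∀ u v w, r u v → A u w → ∃ w', r w w' ∧ A v w')
    (h6 : ∀ u w, A u w → u ≠ w ∧ 0 < M u w)
    (h7 : ∀ g', r g g' → deg M g' + L < Lc.card ∨
      ∀ y1 y2, y1 ≠ g' → y2 ≠ g' → M g' y1 = L + 1 → M g' y2 = L + 1 → y1 = y2)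
    (hconn : ∀ x w, x ≠ w → 0 < M x w → Relation.ReflTransGen (fun a b => r a b ∨ A a b) x g) :
    Colorable Lc M := by
  classical
  by_contra hnc
  obtain ⟨Mc, hs, hle, ⟨x0, w0, hxw0, hpos0⟩, hfan⟩ := exists_critical Lc M hsymm
    (fun u => by have := h1 u; omega) hnc
  -- consequence of the fan inequality
  have key : ∀ x w, x ≠ w → 0 < Mc x w → ∃ y1 y2, y1 ≠ y2 ∧ y1 ≠ x ∧ y2 ≠ x ∧
      M x y1 = L + 1 ∧ M x y2 = L + 1 ∧ deg Mc y1 = deg M y1 ∧ deg M y1 + L = Lc.card := by
    intro x w hxw hpos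
    obtain ⟨Y, _, hxY, hsum⟩ := hfan x w hxw hpos
    let Z : Finset W := Y.filter (fun y => Mc x y = Lc.card - deg Mc y + 1)
    have hbd : ∀ y ∈ Y, Mc x y ≤ (Lc.card - deg Mc y) + if y ∈ Z then 1 else 0 := by
      intro y hy
      have hyx : x ≠ y := by rintro rfl; exact hxY hy
      have e1 := h1 y
      have e2 := h2 x y hyx
      have e3 := hle x y
      have e4 : deg Mc y ≤ deg M y := deg_mono y (fun w => hle y w)
      by_cases hZ : y ∈ Z
      · rw [if_pos hZ]
        have : Mc x y = Lc.card - deg Mc y + 1 := (mem_filter.mp hZ).2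
        omega
      · rw [if_neg hZ]
        have : Mc x y ≠ Lc.card - deg Mc y + 1 := fun h => hZ (mem_filter.mpr ⟨hy, h⟩)
        omega
    have hsum2 : ∑ y ∈ Y, Mc x y ≤ ∑ y ∈ Y, (Lc.card - deg Mc y) + Z.card := by
      calc ∑ y ∈ Y, Mc x y ≤ ∑ y ∈ Y, ((Lc.card - deg Mc y) + if y ∈ Z then 1 else 0) :=
            Finset.sum_le_sum hbd
        _ = ∑ y ∈ Y, (Lc.card - deg Mc y) + Z.card := by
            rw [Finset.sum_add_distrib]
            congr 1
            rw [← Finset.card_filter]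
            congr 1
            ext y
            simp only [Z, mem_filter]
            tauto
    have hZ2 : 1 < Z.card := by omega
    rw [Finset.one_lt_card] at hZ2
    obtain ⟨y1, hy1, y2, hy2, hne⟩ := hZ2
    have hfacts : ∀ y ∈ Z, y ≠ x ∧ M x y = L + 1 ∧ deg Mc y = deg M y ∧
        deg M y + L = Lc.card := by
      intro y hy
      have hy' := mem_filter.mp hy
      have hyx : x ≠ y := by rintro rfl; exact hxY hy'.1
      have e1 := h1 y
      have e2 := h2 x y hyx
      have e3 := hle x y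
      have e4 : deg Mc y ≤ deg M y := deg_mono y (fun w => hle y w)
      have e5 := hy'.2
      refine ⟨hyx.symm, ?_, ?_, ?_⟩ <;> omega
    obtain ⟨a1, a2, a3, a4⟩ := hfacts y1 hy1
    obtain ⟨b1, b2, _, _⟩ := hfacts y2 hy2
    exact ⟨y1, y2, hne, a1, b1, a2, b2, a3, a4⟩
  -- full vertices keep all their edges
  have hfull : ∀ y, deg Mc y = deg M y → ∀ w, y ≠ w → Mc y w = M y w := by
    intro y hy w hyw
    unfold deg at hy
    have := (Finset.sum_eq_sum_iff_of_le (fun i _ => hle y i)).mp hy w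
      (mem_erase.mpr ⟨hyw.symm, mem_univ _⟩)
    exact this
  let P : W → Prop := fun u => ∃ u', r u u' ∧ ∃ w, u' ≠ w ∧ 0 < Mc u' w
  have hstep : ∀ a b, (r a b ∨ A a b) → P a → P b := by
    rintro a b hab ⟨u', hau', w, huw, hpos⟩
    rcases hab with hab | hab
    · exact ⟨u', rtrans b a u' (rsymm _ _ hab) hau', w, huw, hpos⟩
    · obtain ⟨y, _, _, hyx, _, hM, _, hdeg, _⟩ := key u' w huw hpos
      have hry : r u' y := h3 u' y hyx.symm hM
      obtain ⟨b', hbb', hA⟩ := h5 a y b (rtrans _ _ _ hau' hry) hab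
      obtain ⟨hne, hp⟩ := h6 y b' hA
      refine ⟨b', hbb', y, hne.symm, ?_⟩
      rw [hs, hfull y hdeg b' hne]
      exact hp
  have hP0 : P x0 := by
    obtain ⟨y, _, _, hyx, _, hM, _, _, _⟩ := key x0 w0 hxw0 hpos0
    have hr := h3 x0 y hyx.symm hM
    exact ⟨x0, rtrans _ _ _ hr (rsymm _ _ hr), w0, hxw0, hpos0⟩
  have hPg : P g := by
    have hc := hconn x0 w0 hxw0 (lt_of_lt_of_le hpos0 (hle x0 w0))
    have hgen : ∀ z, Relation.ReflTransGen (fun a b => r a b ∨ A a b) x0 z → P z := by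
      intro z hz
      induction hz with
      | refl => exact hP0
      | tail _ hbc ih => exact hstep _ _ hbc ih
    exact hgen g hc
  obtain ⟨g', hgg', w, hgw, hpos⟩ := hPg
  obtain ⟨y1, y2, hne, hy1, hy2, hM1, hM2, _, htight⟩ := key g' w hgw hpos
  rcases h7 g' hgg' with h | h
  · have h8 := h4 g' y1 (h3 g' y1 hy1.symm hM1)
    omega
  · exact hne (h y1 y2 hy1 hy2 hM1 hM2)

end struct

end Pool.Agent.H975R2.Wreath
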